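import Pool.Agent.MWHP.StmtsP

/-!
# MWHP row NRX (helper39)

Normal vectors, period `n`: in every block where a letter is present once and absorbs, `2 n` letters
are added.
-/

set_option autoImplicit false

namespace Pool.Agent.MWHP.H39

open Pool.Agent.Helper14_MV Pool.Agent.Helper2_MV Pool.Agent.MVO Pool.Agent.MWL Pool.Agent.MWS
open Pool.Agent.MWA Pool.Agent.MWH

theorem rtrans {θ : FIC} {a b c : List ℕ} (h : RR θ a b) (h' : RR θ b c) : RR θ a c :=
  θ.trans h h'

theorem vs_mono {a b a' b' : ℕ → ℕ} {i : ℕ} {s : Stt} (h : Vs a b i s) (ha : a i ≤ a' i)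
    (hb : b i ≤ b' i) : Vs a' b' i s := by
  intro hs
  rcases h hs with h1 | h1
  · exact Or.inl (by omega)
  · exact Or.inr (by omega)

/-- abstract form of the process for one vector -/
theorem process {n : ℕ} (hn1 : 1 ≤ n) (htrn : MWL.TrnStmt) (R : FC) (k : ℕ) (a : ℕ → ℕ)
    (G : (ℕ → ℕ) → Prop)
    (h0 : G a) (hG : ∀ c : ℕ → ℕ, G c → ∀ j ≤ k, c j ≠ 0 → Ab n R k c j → G (ad n c j)) :
    ∃ a', G a' ∧ MWHP.Nrm n R k a' ∧ ∀ j, a j ≤ a' j ∧ (a j = 0 → a' j = 0) := by
  have key : ∀ N : ℕ, ∃ a', G a' ∧ (∀ j < N, j ≤ k → a' j ≠ 0 → Ab n R k a' j → 2 ≤ a' j) ∧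
      ∀ j, a j ≤ a' j ∧ (a j = 0 → a' j = 0) := by
    intro N
    induction N with
    | zero => exact ⟨a, h0, fun j hj => absurd hj (by omega), fun j => ⟨le_refl _, fun h => h⟩⟩
    | succ N ih =>
      obtain ⟨c, hc, hn, hz⟩ := ih
      by_cases hs : N ≤ k ∧ c N ≠ 0 ∧ Ab n R k c N
      · obtain ⟨h1, h2, h3⟩ := hs
        refine ⟨ad n c N, hG c hc N h1 h2 h3, ?_, ?_⟩
        · intro j hj hjk hne hab
          have hab' : Ab n R k c j := ((htrn n R k c j).1 _ h3).2 hab
          by_cases hjn : j = N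
          · subst hjn
            show 2 ≤ c j + if j = j then 2 * n else 0
            rw [if_pos rfl]
            omega
          · have e1 : ad n c N j = c j := by
              show c j + (if j = N then 2 * n else 0) = c j
              rw [if_neg hjn]
              omega
            rw [e1] at hne ⊢
            exact hn j (by omega) hjk hne hab'
        · intro j
          have h4 := hz j
          show a j ≤ c j + (if j = N then 2 * n else 0) ∧
            (a j = 0 → c j + (if j = N then 2 * n else 0) = 0)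
          by_cases hjn : j = N
          · subst hjn
            refine ⟨by omega, fun h => absurd (h4.2 h) h2⟩
          · rw [if_neg hjn]
            exact ⟨by omega, fun h => by rw [h4.2 h]⟩
      · refine ⟨c, hc, ?_, hz⟩
        intro j hj hjk hne hab
        by_cases hjn : j = N
        · subst hjn
          exact absurd ⟨hjk, hne, hab⟩ hs
        · exact hn j (by omega) hjk hne hab
  obtain ⟨a', h1, h2, h3⟩ := key (k + 1)
  exact ⟨a', h1, fun j hj => h2 j (by omega) hj, h3⟩

theorem nrx (htrn : MWL.TrnStmt) (habi : MWHP.AbiStmt) (habj : MWHP.AbjStmt) :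
    MWHP.NrxStmt := by
  intro n β hβ k a b i hv
  have hββ : β ≤ β := fun _ _ h => h
  -- the letter `0`
  obtain ⟨a', ⟨hva, hia, hra⟩, hna, hza⟩ := process hβ.pos htrn (FC.ofFIC β) k a
    (fun c => Vd k c b i ∧ a i ≤ c i ∧
      ∀ s : Stt, Vs a b i s → RR β (asm k (W a b i s)) (asm k (W c b i s)))
    ⟨hv, le_refl _, fun s _ => RR.refl _⟩ (by
      rintro c ⟨h1, h2, h3⟩ j hj hne hab
      have h4 : j = i ∨ b j = 0 := by
        by_cases hji : j = i
        · exact Or.inl hji
        · exact Or.inr ((h1.un j hj hji).resolve_left hne)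
      obtain ⟨h5, h6⟩ := habi n β β hβ hββ k c b i h1 j hj hab h4
      refine ⟨h5, ?_, ?_⟩
      · show a i ≤ c i + _
        omega
      · intro s hs
        exact rtrans (h3 s hs) (h6 s (vs_mono hs h2 (le_refl _))))
  -- the letter `1`
  obtain ⟨b', ⟨hvb, hib, hrb⟩, hnb, hzb⟩ := process hβ.pos htrn (FC.ofFIC β) k b
    (fun c => Vd k a' c i ∧ b i ≤ c i ∧
      ∀ s : Stt, Vs a b i s → RR β (asm k (W a b i s)) (asm k (W a' c i s)))
    ⟨hva, le_refl _, hra⟩ (by
      rintro c ⟨h1, h2, h3⟩ j hj hne hab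
      have h4 : j = i ∨ a' j = 0 := by
        by_cases hji : j = i
        · exact Or.inl hji
        · exact Or.inr ((h1.un j hj hji).resolve_right hne)
      obtain ⟨h5, h6⟩ := habj n β β hβ hββ k a' c i h1 j hj hab h4
      refine ⟨h5, ?_, ?_⟩
      · show b i ≤ c i + _
        omega
      · intro s hs
        exact rtrans (h3 s hs) (h6 s (vs_mono hs hia h2)))
  refine ⟨a', b', hvb, hna, hnb, fun j => ⟨(hza j).1, (hzb j).1, (hza j).2, (hzb j).2⟩, ?_⟩
  intro θ hθ s s' hs hs'
  have h1 : RR θ (asm k (W a b i s)) (asm k (W a' b' i s)) := hθ _ _ (hrb s hs)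
  have h2 : RR θ (asm k (W a b i s')) (asm k (W a' b' i s')) := hθ _ _ (hrb s' hs')
  constructor
  · intro h
    exact rtrans h1.symm (rtrans h h2)
  · intro h
    exact rtrans h1 (rtrans h h2.symm)

end Pool.Agent.MWHP.H39
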