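import Pool.Agent.MWHP.StmtsN

/-!
# Squad MWHP, row SHN (helper39): saturations of the same types, period `n`
-/

set_option autoImplicit false

namespace Pool.Agent.MWHP.H39

open Pool.Agent.Helper14_MV Pool.Agent.Helper2_MV Pool.Agent.MVO Pool.Agent.MWL Pool.Agent.MWS
open Pool.Agent.MWA Pool.Agent.MWH

/-- a letter which is not in the blocks of `B` -/
theorem shn_zero {θ : FIC} (hnd : ND (FC.ofFIC θ)) {k : ℕ} {B B' C C' : ℕ → List ℕ} {x : ℕ}
    (h : L1 θ k (ty B x) (ty B' x)) (hB : ∀ j ≤ k, x ∉ B j) (hC : MWS.Sub k B C)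
    (hC' : MWS.Sub k B' C') :
    ∀ j ≤ k, ty C x j = 0 ∧ ty C' x j = 0 := by
  have h1 : deg k (ty B x) = 0 := by
    unfold deg
    refine Finset.sum_eq_zero fun j hj => ?_
    have : j ≤ k := by
      have := Finset.mem_range.1 hj
      omega
    exact List.count_eq_zero_of_not_mem (hB j this)
  have h2 : ∀ j ≤ k, ty B x j = ty B' x j := hnd k _ _ h (by omega)
  have hB' : ∀ j ≤ k, x ∉ B' j := by
    intro j hj hx
    have h3 := h2 j hj
    have h4 : ty B x j = 0 := List.count_eq_zero_of_not_mem (hB j hj)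
    have h5 : 0 < ty B' x j := List.count_pos_iff.2 hx
    omega
  intro j hj
  constructor
  · refine List.count_eq_zero_of_not_mem fun hx => ?_
    obtain ⟨i, hi, hx'⟩ := hC x ⟨j, hj, hx⟩
    exact hB i hi hx'
  · refine List.count_eq_zero_of_not_mem fun hx => ?_
    obtain ⟨i, hi, hx'⟩ := hC' x ⟨j, hj, hx⟩
    exact hB' i hi hx'

/-- row SHN -/
theorem shn (hone : MVO.OneStmt) (htrn : MWL.TrnStmt) (hkey : MWL.KeyStmt) (hndq : MWA.NdqStmt)
    (hlrn : LrnnStmt) (hstn : StnStmt) (hala : AlaStmt) : ShnStmt := by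
  intro n β θ hβ hθ hnc k B B' hB hB' hL
  obtain ⟨C, hC, hSC, hRC, -, hAC⟩ := hstn n β θ hβ hθ k B hB
  obtain ⟨C', hC', hSC', hRC', -, hAC'⟩ := hstn n β θ hβ hθ k B' hB'
  have hnd : ND (FC.ofFIC θ) := hndq β θ hβ.cap hθ hnc
  have hlr : LR n (FC.ofFIC θ) := hlrn n β θ hβ hθ
  have hcc : ∀ x, NS k x → L1 θ k (ty C x) (ty C' x) := by
    intro x hx
    have hac : L1 θ k (ty B x) (ty C x) := hone.1 θ k B C x hx hB.ok hC.ok hRC
    have hac' : L1 θ k (ty B' x) (ty C' x) := hone.1 θ k B' C' x hx hB'.ok hC'.ok hRC'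
    exact (FC.ofFIC θ).trans ((FC.ofFIC θ).trans ((FC.ofFIC θ).symm hac) (hL x hx)) hac'
  have hsh : ∀ x, NS k x → Sh k (ty C x) (ty C' x) := by
    intro x hx
    have haa' : L1 θ k (ty B x) (ty B' x) := hL x hx
    by_cases hxB : ∃ j ≤ k, x ∈ B j
    · by_cases hxB' : ∃ j ≤ k, x ∈ B' j
      · have hac : L1 θ k (ty B x) (ty C x) := hone.1 θ k B C x hx hB.ok hC.ok hRC
        intro i hi
        by_cases hAb : Ab n (FC.ofFIC θ) k (ty B x) i
        · right
          have hAb' : Ab n (FC.ofFIC θ) k (ty B' x) i :=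
            ((htrn n (FC.ofFIC θ) k (ty B x) i).1 (ty B' x) haa').1 hAb
          exact ⟨hAC x hxB i hi hAb, hAC' x hxB' i hi hAb'⟩
        · left
          have hAbC : ¬ Ab n (FC.ofFIC θ) k (ty C x) i := fun h =>
            hAb (((htrn n (FC.ofFIC θ) k (ty B x) i).1 (ty C x) hac).2 h)
          exact hkey n (FC.ofFIC θ) hlr hnd k (ty C x) (ty C' x) (hcc x hx) i hi hAbC
      · intro j hj
        left
        have h0 := shn_zero hnd ((FC.ofFIC θ).symm haa') (fun j hj hx => hxB' ⟨j, hj, hx⟩)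
          hSC' hSC j hj
        rw [h0.1, h0.2]
    · intro j hj
      left
      have h0 := shn_zero hnd haa' (fun j hj hx => hxB ⟨j, hj, hx⟩) hSC hSC' j hj
      rw [h0.1, h0.2]
  obtain ⟨C2, hC2, hS2, hE2, hR2⟩ := hala n β θ hβ hθ k C C' hC hC' hsh hcc
  refine ⟨C2, C', hC2, hC', fun c hc => hSC c (hS2 c hc), hSC', hE2, ?_, hRC'⟩
  exact θ.trans hRC hR2

end Pool.Agent.MWHP.H39
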